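import Pool.Agent.PCO.StmtsA

/-! PCO squad, row BXW (helper81): extreme elements of the subspace of a box. -/

set_option autoImplicit false

open Matrix Filter Topology

namespace Pool.Agent.PCO.H81

open Pool.Agent.PFS Pool.Agent.PFJ

theorem bxw (wbf : WbfStmt) (bf1 : Bf1Stmt) : BxwStmt := by
  intro n C Γ hC hM U v hB e he hecl hext he0
  obtain ⟨-, hv, -⟩ := bf1 n C Γ hC hM U v hB
  obtain ⟨y, hy, τ, rfl⟩ := ((wbf n).1 U v e).1 he
  obtain ⟨hycl, hτ⟩ := hB.comp y hy τ hecl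
  have h1 : (1 : ℝ) • (y + τ • v) - y ∈ closure C := by
    have h2 : (1 : ℝ) • (y + τ • v) - y = τ • v := by
      rw [one_smul]
      abel
    rw [h2]
    exact hC.toPCone.cl_smul hv hτ
  obtain ⟨a, ha⟩ := hext y hycl 1 h1
  by_cases h0 : a = 0
  · right
    rw [h0, zero_smul] at ha
    rw [ha, zero_add] at he0 ⊢
    have hτ0 : τ ≠ 0 := by
      rintro rfl
      rw [zero_smul] at he0
      exact he0 rfl
    exact ⟨τ, lt_of_le_of_ne hτ (Ne.symm hτ0), rfl⟩
  · left
    have h3 : y + τ • v = a⁻¹ • y := by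
      conv_rhs => rw [ha]
      rw [smul_smul, inv_mul_cancel₀ h0, one_smul]
    rw [h3]
    exact U.smul_mem _ hy

end Pool.Agent.PCO.H81
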