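import Pool.Agent.PCO.StmtsB

/-! PCO squad, row DON (helper81): the projection of the second apex is not zero. -/

set_option autoImplicit false

open Matrix Filter Topology

namespace Pool.Agent.PCO.H81

open Pool.Agent.PFS Pool.Agent.PFJ

/-- zooming at a family of elements of the hull -/
theorem zoomFam {n : ℕ} {C : Set (V n)} {Γ : Subgroup (GL (Fin n) ℝ)} (h : CC C Γ) {ι : Type}
    [Fintype ι] [DecidableEq ι] (hcard : 2 ≤ Fintype.card ι) (f : ℕ → ι → V n)
    (hfH : ∀ m i, f m i ∈ Hull C Γ) (hsum : ∀ m, ∑ i, f m i ∈ C) :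
    (∃ W : ι → V n, IsPES C Γ W) ∨ ∃ (o : ι) (M : ℝ) (φ : ℕ → ℕ), 0 < M ∧
      Tendsto φ atTop atTop ∧ ∀ m, M • (∑ j ∈ Finset.univ.erase o, f (φ m) j) - f (φ m) o ∈ C := by
  have H := h.hul
  have : Nonempty ι := Fintype.card_pos_iff.1 (by omega)
  have hadd : ∀ (s : Finset ι), s.Nonempty → ∀ m, ∑ i ∈ s, f m i ∈ Hull C Γ := by
    intro s hs m
    induction hs using Finset.Nonempty.cons_induction with
    | singleton a => rw [Finset.sum_singleton]; exact hfH m a
    | cons a s ha hs ih => rw [Finset.sum_cons]; exact H.add _ (hfH m a) _ ih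
  obtain ⟨φ, g, s, p0, hφm, hg, hs, hp0, hlimp⟩ := H60.zom n C Γ h (fun m => ∑ i, f m i) hsum
    (fun m => hadd _ Finset.univ_nonempty m)
  obtain ⟨X, hX⟩ : ∃ X : ℕ → ι → V n, X = fun m o => s m • act (g m) (f (φ m) o) := ⟨_, rfl⟩
  have hsumX : ∀ m, ∑ o, X m o = s m • act (g m) (∑ i, f (φ m) i) := by
    intro m
    rw [hX]
    simp only
    rw [← Finset.smul_sum, ← CC.act_sum]
  have hXH : ∀ m o, X m o ∈ Hull C Γ := fun m o => by
    rw [hX]
    exact H.smul _ (H.act _ (hfH _ o) _ (hg m)) _ (hs m)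
  have hlimX : Tendsto (fun m => ∑ o, X m o) atTop (𝓝 p0) := by
    simp only [hsumX]
    exact hlimp
  obtain ⟨ψ, W, hψ, hWlim, hWsum, hW⟩ := H37.limF n C Γ h ι hcard X p0 hXH hp0 hlimX
  have hcomp : Tendsto (fun m => φ (ψ m)) atTop atTop :=
    hφm.tendsto_atTop.comp hψ.tendsto_atTop
  by_cases hall : ∀ i, ∑ j ∈ Finset.univ.erase i, W j ∉ C
  · exact Or.inl ⟨W, hW hall⟩
  right
  push Not at hall
  obtain ⟨o, hmem⟩ := hall
  obtain ⟨M, hM, hMC⟩ := h.absorb hmem (W o)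
  have hl2 : Tendsto (fun m => M • (∑ j ∈ Finset.univ.erase o, X (ψ m) j) - X (ψ m) o) atTop
      (𝓝 (M • (∑ j ∈ Finset.univ.erase o, W j) - W o)) :=
    ((tendsto_finsetSum _ fun j _ => hWlim j).const_smul M).sub (hWlim o)
  obtain ⟨N, hN⟩ := eventually_atTop.1 (hl2.eventually (h.isOpen.mem_nhds hMC))
  refine ⟨o, M, fun m => φ (ψ (m + N)), hM, hcomp.comp (tendsto_add_atTop_nat N), fun m => ?_⟩
  have hm' : M • (∑ j ∈ Finset.univ.erase o, X (ψ (m + N)) j) - X (ψ (m + N)) o ∈ C :=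
    hN (m + N) (Nat.le_add_left _ _)
  have e : M • (∑ j ∈ Finset.univ.erase o, X (ψ (m + N)) j) - X (ψ (m + N)) o
      = s (ψ (m + N)) • act (g (ψ (m + N)))
        (M • (∑ j ∈ Finset.univ.erase o, f (φ (ψ (m + N))) j) - f (φ (ψ (m + N))) o) := by
    have e0 : ∑ j ∈ Finset.univ.erase o, X (ψ (m + N)) j = s (ψ (m + N)) •
        act (g (ψ (m + N))) (∑ j ∈ Finset.univ.erase o, f (φ (ψ (m + N))) j) := by
      rw [hX]
      simp only
      rw [← Finset.smul_sum, ← CC.act_sum]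
    have e1 : X (ψ (m + N)) o = s (ψ (m + N)) • act (g (ψ (m + N))) (f (φ (ψ (m + N))) o) := by
      rw [hX]
    rw [e0, e1, CC.act_sub, CC.act_smul, smul_sub, smul_comm M]
  rw [e, h.sact_mem_iff (hg _) (hs _)] at hm'
  exact hm'

/-- two extreme-type comparisons -/
theorem pos_of {n : ℕ} {C : Set (V n)} (h : PCone C) {v v' : V n} (hv : v ∈ closure C)
    (hv' : v' ∈ closure C) (hv0 : v ≠ 0) {c : ℝ} (hc : v = c • v') : 0 < c := by
  by_contra hcon
  push Not at hcon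
  apply hv0
  apply h.salient v hv
  have h1 : -v = (-c) • v' := by rw [hc, neg_smul]
  rw [h1]
  exact h.cl_smul hv' (by linarith only [hcon])

theorem don (bf1 : Bf1Stmt) (bxm : BxmStmt) : DonStmt := by
  intro n C Γ d hH U v v' p hB hB' hd hp hne h0
  have hC : CC C Γ := hH.toCC
  have hP : PCone C := hC.toPCone
  have HF := hC.hul
  obtain ⟨b1, b2, b3, b4, b5, b6, -, -, b9⟩ := bf1 n C Γ hC hH.maxc U v hB
  obtain ⟨b1', b2', b3', -⟩ := bf1 n C Γ hC hH.maxc U v' hB'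
  obtain ⟨-, -, -, -, hev, -, -⟩ := bxm n C Γ d hH U v hB hd
  obtain ⟨-, -, -, -, hev', -, -⟩ := bxm n C Γ d hH U v' hB' hd
  obtain ⟨e, he, e', he', hpes⟩ := hB.pes
  have l0 : e ∈ LamC C Γ := hpes.2 0
  have l1 : e' ∈ LamC C Γ := hpes.2 1
  have c0 := HF.lamCl _ l0
  have c1 := HF.lamCl _ l1
  have n0 := HF.lamNe _ l0
  have n1 := HF.lamNe _ l1
  -- the sums
  have hs : ∀ a b c : ℝ, 0 < a → 0 < b → 0 < c → a • e + b • e' + c • v ∈ C := by
    intro a b c ha hb hc
    have h1 := hpes.1.pos ![a, b, c] (by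
      intro i
      fin_cases i
      · exact ha
      · exact hb
      · exact hc)
    simpa [Fin.sum_univ_three] using h1
  have ht : ∀ a b c : ℝ, 0 ≤ a → 0 ≤ b → 0 ≤ c → (a = 0 ∨ b = 0 ∨ c = 0) →
      a • e + b • e' + c • v ∉ C := by
    intro a b c ha hb hc habc h1
    refine hpes.1.bd ![a, b, c] ?_ ?_ (by simpa [Fin.sum_univ_three] using h1)
    · intro i
      fin_cases i
      · exact ha
      · exact hb
      · exact hc
    · rcases habc with h2 | h2 | h2
      · exact ⟨0, h2⟩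
      · exact ⟨1, h2⟩
      · exact ⟨2, h2⟩
  -- `p v = 0`
  have hpv : p v = 0 := by
    rw [hp.ker]
    intro x hx τ hτ
    have hx' : τ • x ∈ closure C := subset_closure (hP.smul x hx τ hτ)
    refine ⟨1, one_pos, ?_, ?_⟩
    · have h1 : (1 : ℝ) • v + τ • x - v = τ • x := by
        rw [one_smul]
        abel
      rw [h1]
      exact hx'
    · exact hP.cl_add (hP.cl_add (hP.cl_smul b2 zero_le_one) hx') b2
  -- boundary elements
  have bd0 : Bd C U e := by
    refine ⟨he, c0, n0, fun hu => ?_⟩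
    have h1 := (b6 e he 1).2 ⟨hu, one_pos⟩
    refine ht 1 0 1 zero_le_one le_rfl zero_le_one (Or.inr (Or.inl rfl)) ?_
    simpa using h1
  have bd1 : Bd C U e' := by
    refine ⟨he', c1, n1, fun hu => ?_⟩
    have h1 := (b6 e' he' 1).2 ⟨hu, one_pos⟩
    refine ht 0 1 1 le_rfl zero_le_one zero_le_one (Or.inl rfl) ?_
    simpa using h1
  -- the family
  obtain ⟨f, hf⟩ : ∃ f : ℕ → Fin 4 → V n,
    f = fun m => ![e, e', (2 : ℝ) ^ m • v, (2 : ℝ) ^ m • v'] := ⟨_, rfl⟩
  have f0 : ∀ m, f m 0 = e := fun m => by rw [hf]; rfl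
  have f1 : ∀ m, f m 1 = e' := fun m => by rw [hf]; rfl
  have f2 : ∀ m, f m 2 = (2 : ℝ) ^ m • v := fun m => by rw [hf]; rfl
  have f3 : ∀ m, f m 3 = (2 : ℝ) ^ m • v' := fun m => by rw [hf]; rfl
  have hfH : ∀ m i, f m i ∈ Hull C Γ := by
    intro m i
    fin_cases i
    · exact (f0 m) ▸ HF.lamHull _ l0
    · exact (f1 m) ▸ HF.lamHull _ l1
    · exact (f2 m) ▸ HF.smul _ (HF.lamHull _ b1) _ (by positivity)
    · exact (f3 m) ▸ HF.smul _ (HF.lamHull _ b1') _ (by positivity)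
  have hfs : ∀ m, ∑ i, f m i ∈ C := by
    intro m
    rw [Fin.sum_univ_four, f0, f1, f2, f3]
    have h1 := hs 1 1 (2 ^ m) one_pos one_pos (by positivity)
    rw [one_smul, one_smul] at h1
    exact hP.add_cl h1 (hP.cl_smul b2' (by positivity))
  have htl : Tendsto (fun m : ℕ => ((2 : ℝ) ^ m)⁻¹) atTop (𝓝 0) := by
    have h1 := tendsto_pow_atTop_nhds_zero_of_lt_one (r := (2 : ℝ)⁻¹) (by norm_num) (by norm_num)
    simpa only [inv_pow] using h1
  -- the limit argument
  have hlim : ∀ (M : ℝ) (φ : ℕ → ℕ) (y z : V n), Tendsto φ atTop atTop →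
      (∀ m, M • (e + e' + (2 : ℝ) ^ (φ m) • y) - (2 : ℝ) ^ (φ m) • z ∈ C) →
      M • y - z ∈ closure C := by
    intro M φ y z hφ hm
    have h1 : Tendsto (fun m => M • (((2 : ℝ) ^ (φ m))⁻¹ • (e + e') + y) - z) atTop
        (𝓝 (M • ((0 : ℝ) • (e + e') + y) - z)) :=
      ((((htl.comp hφ).smul_const (e + e')).add tendsto_const_nhds).const_smul M).sub
        tendsto_const_nhds
    rw [zero_smul, zero_add] at h1
    refine isClosed_closure.mem_of_tendsto h1 (Eventually.of_forall fun m => ?_)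
    have h2 := hP.smul _ (hm m) ((2 : ℝ) ^ (φ m))⁻¹ (by positivity)
    have h3 : ((2 : ℝ) ^ (φ m))⁻¹ • (M • (e + e' + (2 : ℝ) ^ (φ m) • y) - (2 : ℝ) ^ (φ m) • z) =
        M • (((2 : ℝ) ^ (φ m))⁻¹ • (e + e') + y) - z := by
      have h4 : ((2 : ℝ) ^ (φ m))⁻¹ * (2 : ℝ) ^ (φ m) = 1 := inv_mul_cancel₀ (by positivity)
      rw [smul_sub, smul_comm _ M, smul_add _ (e + e'), smul_smul _ _ y, smul_smul _ _ z, h4,
        one_smul, one_smul]
    rw [h3] at h2
    exact subset_closure h2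
  rcases zoomFam hC (by simp) f hfH hfs with ⟨W, hW⟩ | ⟨o, M, φ, hM, hφ, hm⟩
  · have := hH.maxc 4 W hW
    omega
  · have hsub : ∀ m, ∑ j ∈ Finset.univ.erase o, f (φ m) j =
        e + e' + (2 : ℝ) ^ (φ m) • v + (2 : ℝ) ^ (φ m) • v' - f (φ m) o := by
      intro m
      rw [Finset.sum_erase_eq_sub (Finset.mem_univ _), Fin.sum_univ_four, f0, f1, f2, f3]
    fin_cases o
    · -- omit `e`
      have h1 := hm 0
      rw [hsub] at h1
      simp only [Fin.zero_eta, f0] at h1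
      have h2 := hp.pos _ (subset_closure h1)
      have h3 : p (M • (e + e' + (2 : ℝ) ^ (φ 0) • v + (2 : ℝ) ^ (φ 0) • v' - e) - e) =
          M • e' - e := by
        simp only [map_sub, map_add, map_smul, hp.idU e he, hp.idU e' he', hpv, h0]
        module
      rw [h3] at h2
      obtain ⟨c, hc, hce⟩ := b9 e' bd1 e he c0 M h2
      refine ht 0 (c + 1) 1 le_rfl (by linarith only [hc]) zero_le_one (Or.inl rfl) ?_
      have h4 := hs 1 1 1 one_pos one_pos one_pos
      have h5 : (0 : ℝ) • e + (c + 1) • e' + (1 : ℝ) • v =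
          (1 : ℝ) • (c • e') + (1 : ℝ) • e' + (1 : ℝ) • v := by module
      rw [h5, ← hce]
      exact h4
    · -- omit `e'`
      have h1 := hm 0
      rw [hsub] at h1
      simp only [Fin.mk_one, f1] at h1
      have h2 := hp.pos _ (subset_closure h1)
      have h3 : p (M • (e + e' + (2 : ℝ) ^ (φ 0) • v + (2 : ℝ) ^ (φ 0) • v' - e') - e') =
          M • e - e' := by
        simp only [map_sub, map_add, map_smul, hp.idU e he, hp.idU e' he', hpv, h0]
        module
      rw [h3] at h2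
      obtain ⟨c, hc, hce⟩ := b9 e bd0 e' he' c1 M h2
      refine ht (c + 1) 0 1 (by linarith only [hc]) le_rfl zero_le_one (Or.inr (Or.inl rfl)) ?_
      have h4 := hs 1 1 1 one_pos one_pos one_pos
      have h5 : (c + 1) • e + (0 : ℝ) • e' + (1 : ℝ) • v =
          (1 : ℝ) • e + (1 : ℝ) • (c • e) + (1 : ℝ) • v := by module
      rw [h5, ← hce]
      exact h4
    · -- omit `v`
      have h1 : M • v' - v ∈ closure C := by
        refine hlim M φ v' v hφ fun m => ?_
        have h2 := hm m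
        rw [hsub] at h2
        simp only [Fin.reduceFinMk, f2] at h2
        have h4 : e + e' + (2 : ℝ) ^ (φ m) • v + (2 : ℝ) ^ (φ m) • v' - (2 : ℝ) ^ (φ m) • v =
            e + e' + (2 : ℝ) ^ (φ m) • v' := by abel
        rwa [h4] at h2
      obtain ⟨c, hc⟩ := hev' v b2 M h1
      have hcp := pos_of hP b2 b2' b3 hc
      refine hne c⁻¹ (by positivity) ?_
      rw [hc, smul_smul, inv_mul_cancel₀ hcp.ne', one_smul]
    · -- omit `v'`
      have h1 : M • v - v' ∈ closure C := by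
        refine hlim M φ v v' hφ fun m => ?_
        have h2 := hm m
        rw [hsub] at h2
        simp only [Fin.reduceFinMk, f3] at h2
        have h4 : e + e' + (2 : ℝ) ^ (φ m) • v + (2 : ℝ) ^ (φ m) • v' - (2 : ℝ) ^ (φ m) • v' =
            e + e' + (2 : ℝ) ^ (φ m) • v := by abel
        rwa [h4] at h2
      obtain ⟨c, hc⟩ := hev v' b2' M h1
      exact hne c (pos_of hP b2' b2 b3' hc) hc

end Pool.Agent.PCO.H81
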